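import Mathlib

namespace Pool.Agent.Results.MP_efcf90_co.Spread

/-- The relation le makes the abelian group A an additive poset. -/
def IsAddPoset {A : Type} [AddCommGroup A] (le : A → A → Prop) : Prop :=
  (∀ a, le a a) ∧ (∀ a b c, le a b → le b c → le a c) ∧ (∀ a b, le a b → le b a → a = b) ∧
    (∀ a b c, le b a → le c a → le (b + c) a) ∧ ∀ a b c, le a b → le a c → le a (a + b + c)

/-- The alternating sum over nonempty subsets J of K. -/
def altSum {A : Type} [AddCommGroup A] [DecidableEq A] (r : A → ℕ) (K : Finset A) : ℤ :=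
  ∑ J ∈ K.powerset.erase ∅, (-1) ^ (J.card + 1) * (r (∑ a ∈ J, a) : ℤ)

def IsRank {A : Type} [AddCommGroup A] [DecidableEq A] (le : A → A → Prop) (r : A → ℕ) : Prop :=
  (∀ a, r a = 0 ↔ a = 0) ∧ (∀ a b, le a (a + b) → r (a + b) = r a + r b) ∧
    ∀ K : Finset A, K.Nonempty → 0 ≤ altSum r K ∧ (2 : ℤ) ^ (K.card - 1) ∣ altSum r K

theorem result : ∃ (A : Type) (_ : AddCommGroup A) (_ : Fintype A) (_ : DecidableEq A)
    (le : A → A → Prop), IsAddPoset le ∧ ¬ ∃ r, IsRank le r := by
  let e : ℕ → ZMod 2 × ZMod 2 × ZMod 2 × ZMod 2 := fun i =>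
    ((i : ZMod 2), ((i / 2 : ℕ) : ZMod 2), ((i / 4 : ℕ) : ZMod 2), ((i / 8 : ℕ) : ZMod 2))
  let L : List (ℕ × ℕ) := [(1, 14), (4, 9), (5, 3), (6, 3), (8, 2), (10, 2), (11, 7), (12, 7),
    (13, 9), (15, 14)]
  refine ⟨ZMod 2 × ZMod 2 × ZMod 2 × ZMod 2, inferInstance, inferInstance, inferInstance,
    fun a b => (a == b || a == 0 || L.any fun p => a == e p.1 && b == e p.2) = true,
    ⟨by decide +kernel, by decide +kernel, by decide +kernel, by decide +kernel,
      by decide +kernel⟩, ?_⟩
  rintro ⟨r, h1, h2, h3⟩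
  have four : ∀ a b c d : ZMod 2 × ZMod 2 × ZMod 2 × ZMod 2, a ∉ ({b, c, d} : Finset _) →
      b ∉ ({c, d} : Finset _) → c ≠ d →
      (0 : ℤ) ≤ r a + r b + r c + r d - r (a + b) - r (a + c) - r (a + d) - r (b + c) - r (b + d) -
        r (c + d) + r (a + b + c) + r (a + b + d) + r (a + c + d) + r (b + c + d) -
        r (a + b + c + d) := by
    intro a b c d ha hb hc
    have h := (h3 {a, b, c, d} (by simp)).1
    have h0 : r 0 = 0 := (h1 0).2 rfl
    unfold altSum at h
    rw [Finset.sum_erase _ (by simp [h0])] at h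
    have hc' : c ∉ ({d} : Finset _) := by simpa using hc
    have hd : ({d} : Finset (ZMod 2 × ZMod 2 × ZMod 2 × ZMod 2)).powerset = {∅, {d}} := rfl
    simp only [Finset.sum_powerset_insert ha, Finset.sum_powerset_insert hb,
      Finset.sum_powerset_insert hc', hd] at h
    simp only [Finset.mem_insert, Finset.mem_singleton, not_or] at ha hb
    simp only [Finset.sum_pair (Finset.singleton_ne_empty d).symm] at h
    simp [ha, hb, hc, h0, ← add_assoc] at h
    linarith
  have q : ∀ i j k l : ℕ, e i ∉ ({e j, e k, e l} : Finset _) → e j ∉ ({e k, e l} : Finset _) →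
      e k ≠ e l → (∀ a < 16, ∀ b < 16, e a + e b = e (a ^^^ b)) → i < 16 → j < 16 → k < 16 →
      l < 16 → (0 : ℤ) ≤ r (e i) + r (e j) + r (e k) + r (e l) - r (e (i ^^^ j)) - r (e (i ^^^ k)) -
        r (e (i ^^^ l)) - r (e (j ^^^ k)) - r (e (j ^^^ l)) - r (e (k ^^^ l)) +
        r (e (i ^^^ j ^^^ k)) + r (e (i ^^^ j ^^^ l)) + r (e (i ^^^ k ^^^ l)) +
        r (e (j ^^^ k ^^^ l)) - r (e (i ^^^ j ^^^ k ^^^ l)) := by
    intro i j k l a b c h hi hj hk hl
    have lt : ∀ a b, a < 16 → b < 16 → a ^^^ b < 16 := fun a b => Nat.xor_lt_two_pow (n := 4)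
    have := four _ _ _ _ a b c
    simpa only [h, lt, hi, hj, hk, hl, h _ (lt _ _ (lt _ _ hi hj) hk) _ hl] using this
  have hx : ∀ a < 16, ∀ b < 16, e a + e b = e (a ^^^ b) := by decide +kernel
  have p : ∀ i j k : ℕ, e i + e j = e k → (i, k) ∈ L → (r (e k) : ℤ) = r (e i) + r (e j) := by
    intro i j k h hm
    have := h2 (e i) (e j) (by
      rw [h]
      simp only [Bool.or_eq_true, List.any_eq_true]
      exact Or.inr ⟨_, hm, by simp⟩)
    rw [h] at this
    exact_mod_cast this
  have p1 := p 1 15 14 (by decide +kernel) (by decide)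
  have p2 := p 4 13 9 (by decide +kernel) (by decide)
  have p3 := p 5 6 3 (by decide +kernel) (by decide)
  have p4 := p 8 10 2 (by decide +kernel) (by decide)
  have p5 := p 11 12 7 (by decide +kernel) (by decide)
  have n1 : r (e 1) ≠ 0 := fun h => absurd ((h1 _).1 h) (by decide +kernel)
  have q1 := q 1 3 5 9 (by decide +kernel) (by decide +kernel) (by decide +kernel) hx
    (by norm_num) (by norm_num) (by norm_num) (by norm_num)
  have q2 := q 2 3 6 10 (by decide +kernel) (by decide +kernel) (by decide +kernel) hx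
    (by norm_num) (by norm_num) (by norm_num) (by norm_num)
  have q3 := q 1 2 5 9 (by decide +kernel) (by decide +kernel) (by decide +kernel) hx
    (by norm_num) (by norm_num) (by norm_num) (by norm_num)
  have q4 := q 4 5 6 12 (by decide +kernel) (by decide +kernel) (by decide +kernel) hx
    (by norm_num) (by norm_num) (by norm_num) (by norm_num)
  have q5 := q 1 3 4 9 (by decide +kernel) (by decide +kernel) (by decide +kernel) hx
    (by norm_num) (by norm_num) (by norm_num) (by norm_num)
  have q6 := q 2 3 4 10 (by decide +kernel) (by decide +kernel) (by decide +kernel) hx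
    (by norm_num) (by norm_num) (by norm_num) (by norm_num)
  have q7 := q 1 2 4 9 (by decide +kernel) (by decide +kernel) (by decide +kernel) hx
    (by norm_num) (by norm_num) (by norm_num) (by norm_num)
  have q8 := q 8 9 10 12 (by decide +kernel) (by decide +kernel) (by decide +kernel) hx
    (by norm_num) (by norm_num) (by norm_num) (by norm_num)
  have q9 := q 1 3 5 8 (by decide +kernel) (by decide +kernel) (by decide +kernel) hx
    (by norm_num) (by norm_num) (by norm_num) (by norm_num)
  have q10 := q 2 3 6 8 (by decide +kernel) (by decide +kernel) (by decide +kernel) hx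
    (by norm_num) (by norm_num) (by norm_num) (by norm_num)
  have q11 := q 1 2 5 8 (by decide +kernel) (by decide +kernel) (by decide +kernel) hx
    (by norm_num) (by norm_num) (by norm_num) (by norm_num)
  have q12 := q 4 5 6 8 (by decide +kernel) (by decide +kernel) (by decide +kernel) hx
    (by norm_num) (by norm_num) (by norm_num) (by norm_num)
  have q13 := q 1 3 4 8 (by decide +kernel) (by decide +kernel) (by decide +kernel) hx
    (by norm_num) (by norm_num) (by norm_num) (by norm_num)
  have q14 := q 2 3 4 8 (by decide +kernel) (by decide +kernel) (by decide +kernel) hx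
    (by norm_num) (by norm_num) (by norm_num) (by norm_num)
  have q15 := q 1 2 4 8 (by decide +kernel) (by decide +kernel) (by decide +kernel) hx
    (by norm_num) (by norm_num) (by norm_num) (by norm_num)
  simp only [Nat.reduceXor] at q1 q2 q3 q4 q5 q6 q7 q8 q9 q10 q11 q12 q13 q14 q15
  omega

end Pool.Agent.Results.MP_efcf90_co.Spread
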